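import Pool.Agent.Helper29.EA.Rounds
import Pool.Agent.Helper6.EA.Split
import Pool.Agent.Helper6.EA.ConnCard

/-!
EA9 over EA6 only
-/

set_option autoImplicit false

namespace Pool.Agent.Helper6.EA

open FirstOrder Pool.Agent.Helper20.Spectra Pool.Agent.Helper31.QD Pool.Agent.Helper38.MC
  Pool.Agent.Helper58.QD Pool.Agent.Helper40.MC Pool.Agent.Helper6.MC
open Pool.Agent.Helper12.EK (Gr Ball Cmp)

theorem stmtSplit (r : ℕ) : StmtSplit r := by
  intro S ar har V _ R m Δ T T' A A' E hG hT hT2 hA u hm hu hO s p hp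
  exact split har R hG hT hT2 hA hm hu hO hp

theorem stmtConnCard (r : ℕ) : StmtConnCard r := by
  intro V _ Δ E h1 h2 h3 x
  exact conn_card6 h1 h2 h3 x

theorem rounds_of_round {r : ℕ} (hRound : StmtRound r) {S : Type} {ar : S → ℕ} {V : Type} [Fintype V]
    (har : ∀ s, ar s ≤ r) (R : Interp S ar V) {A₀ : Finset V} {s l q : ℕ} (hq : 1 ≤ q)
    (hs : ∀ x, (oA R A₀ x).card ≤ s)
    (hl : s * (cB r (dE r l q r)) ^ 2 * (r * l + 1) ^ r * q * (q ^ r - 1) ^ l ≤ (q ^ r) ^ l) :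
    ∃ (A : Finset V) (E : V → V → Prop), A₀ ⊆ A ∧ q * A.card ≤ q * A₀.card + r * (r + 3) * Fintype.card V ∧
      Gd r R A E r (dE r l q r) (tE r l q r) :=
  rounds_of hRound (stmtSplit r) (stmtConnCard r) har R hq hs hl

end Pool.Agent.Helper6.EA
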