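import Pool.Agent.Helper6.EA.Defs
import Pool.Agent.Helper40.EA.Key

/-!
EA9: all rounds (over EA6, EA7, EA8 as hypotheses)
-/

set_option autoImplicit false

namespace Pool.Agent.Helper6.EA

open FirstOrder Pool.Agent.Helper20.Spectra Pool.Agent.Helper31.QD Pool.Agent.Helper38.MC
  Pool.Agent.Helper58.QD Pool.Agent.Helper40.MC Pool.Agent.Helper6.MC
open Pool.Agent.Helper12.EK (Gr Ball Cmp)

open Classical in
/-- EA6 -/
def StmtRound (r : ℕ) : Prop := ∀ (S : Type) (ar : S → ℕ), (∀ s, ar s ≤ r) → ∀ (V : Type)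
  [Fintype V] (R : Interp S ar V) (A₀ : Finset V) (s B l q : ℕ), 1 ≤ q →
    (∀ x, (oA R A₀ x).card ≤ s) → ∀ U : (Fin (r + 1) → V) → Prop,
    (∀ h ∈ GA R A₀, ∀ u, U u → U (h ∘ u)) →
    (∀ x, Nat.card {u : Fin (r + 1) → V // U u ∧ u 0 = x} ≤ B) →
    s * B ^ 2 * (r * l + 1) ^ r * q * (q ^ r - 1) ^ l ≤ (q ^ r) ^ l →
    ∃ (A : Finset V) (E : V → V → Prop), A₀ ⊆ A ∧ q * A.card ≤ q * A₀.card + (r + 3) * Fintype.card V ∧
      (∀ h ∈ GA R A, ∀ x y, E x y → E (h x) (h y)) ∧ (∀ x y, E x y → E y x) ∧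
      (∀ x, (Finset.univ.filter (fun y => E x y)).card ≤ cD r l B q) ∧
      ∀ A', A ⊆ A' → ∀ u, U u → cT r l B q < (oA R A' (u 0)).card →
        ∀ (s : S) (p : Fin (ar s) → V ⊕ Fin (r + 1)), Min R A' u s p → ∃ w ∈ out p, E (u 0) w

open Classical in
/-- EA7 -/
def StmtSplit (r : ℕ) : Prop := ∀ (S : Type) (ar : S → ℕ), (∀ s, ar s ≤ r) → ∀ (V : Type)
  [Fintype V] (R : Interp S ar V) (m Δ T T' : ℕ) (A A' : Finset V) (E : V → V → Prop),
    Gd r R A E m Δ T → T ≤ T' → 4 * (r + 1) ^ 2 * Δ ≤ T' → A ⊆ A' → ∀ u : Fin (r + 1) → V,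
    (Finset.univ.image u).card ≤ m + 1 → ¬ Conn E u →
    (∀ i, T' < (oA R A' (u i)).card) → ∀ (s : S) (p : Fin (ar s) → V ⊕ Fin (r + 1)), Min R A' u s p →
    ∃ w ∈ out p, ∃ i, E (u i) w

open Classical in
/-- EA8 -/
def StmtConnCard (r : ℕ) : Prop := ∀ (V : Type) [Fintype V] (Δ : ℕ) (E : V → V → Prop), (∀ x, E x x) →
    (∀ x y, E x y → E y x) → (∀ x, (Finset.univ.filter (fun y => E x y)).card ≤ Δ) → ∀ x : V,
    Nat.card {u : Fin (r + 1) → V // Conn E u ∧ u 0 = x} ≤ cB r Δ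

lemma GA_anti {S : Type} {ar : S → ℕ} {V : Type} [Fintype V] {R : Interp S ar V} {A A' : Finset V}
    (hA : A ⊆ A') {h : Equiv.Perm V} (hh : h ∈ GA R A') : h ∈ GA R A := by
  unfold GA at hh ⊢
  rw [mem_GS] at hh ⊢
  exact ⟨hh.1, fun x hx => hh.2 x (hA hx)⟩

lemma dE_mono (r l q : ℕ) : Monotone (dE r l q) := by
  refine monotone_nat_of_le_succ fun m => ?_
  show dE r l q m ≤ dE r l q m + cD r l (cB r (dE r l q m)) q
  omega

lemma cB_mono (r : ℕ) {a b : ℕ} (h : a ≤ b) : cB r a ≤ cB r b :=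
  Nat.pow_le_pow_left (Nat.pow_le_pow_left h _) _

lemma Conn.comp {V : Type} [Fintype V] {E : V → V → Prop} {k : ℕ} {u : Fin k → V} (h : V → V)
    (hh : ∀ x y, E x y → E (h x) (h y)) (hu : Conn E u) : Conn E (h ∘ u) := by
  intro I h1 h2
  obtain ⟨i, j, hi, hj, hE⟩ := hu I h1 h2
  exact ⟨i, j, hi, hj, hh _ _ hE⟩

theorem rounds_of {r : ℕ} (hRound : StmtRound r) (hSplit : StmtSplit r) (hConn : StmtConnCard r)
    {S : Type} {ar : S → ℕ} {V : Type} [Fintype V] (har : ∀ s, ar s ≤ r) (R : Interp S ar V)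
    {A₀ : Finset V} {s l q : ℕ} (hq : 1 ≤ q) (hs : ∀ x, (oA R A₀ x).card ≤ s)
    (hl : s * (cB r (dE r l q r)) ^ 2 * (r * l + 1) ^ r * q * (q ^ r - 1) ^ l ≤ (q ^ r) ^ l) :
    ∃ (A : Finset V) (E : V → V → Prop), A₀ ⊆ A ∧ q * A.card ≤ q * A₀.card + r * (r + 3) * Fintype.card V ∧
      Gd r R A E r (dE r l q r) (tE r l q r) := by
  classical
  suffices H : ∀ m, m ≤ r → ∃ (A : Finset V) (E : V → V → Prop), A₀ ⊆ A ∧
      q * A.card ≤ q * A₀.card + m * (r + 3) * Fintype.card V ∧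
      Gd r R A E m (dE r l q m) (tE r l q m) from H r le_rfl
  intro m
  induction m with
  | zero =>
    intro _
    refine ⟨A₀, Eq, subset_rfl, by omega, ?_⟩
    refine ⟨fun x => rfl, fun x y h => h.symm, fun h _ x y e => by rw [e], ?_, ?_⟩
    · intro x
      have h1 : (Finset.univ.filter fun y : V => x = y) = {x} := by
        ext y
        simp [eq_comm]
      rw [h1, Finset.card_singleton]
      exact le_rfl
    · intro A' _ u hu
      exfalso
      have h1 : (Finset.univ.image u).Nonempty := ⟨u 0, Finset.mem_image.2 ⟨0, Finset.mem_univ _, rfl⟩⟩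
      have h2 := Finset.card_pos.2 h1
      have h3 : (Finset.univ.image u).card ≤ 0 := by convert hu using 2
      omega
  | succ m ih =>
    intro hm
    obtain ⟨A, E, hA, hc, hG⟩ := ih (by omega)
    obtain ⟨B, hB⟩ : ∃ B, B = cB r (dE r l q m) := ⟨_, rfl⟩
    have hBle : B ≤ cB r (dE r l q r) := by
      rw [hB]
      exact cB_mono r (dE_mono r l q (by omega))
    have hl' : s * B ^ 2 * (r * l + 1) ^ r * q * (q ^ r - 1) ^ l ≤ (q ^ r) ^ l :=
      le_trans (Nat.mul_le_mul_right _ (Nat.mul_le_mul_right _ (Nat.mul_le_mul_right _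
        (Nat.mul_le_mul_left _ (Nat.pow_le_pow_left hBle 2))))) hl
    have hs' : ∀ x, (oA R A x).card ≤ s := fun x => (Finset.card_le_card (oA_mono hA x)).trans (hs x)
    have hU : ∀ h ∈ GA R A, ∀ u : Fin (r + 1) → V, Conn E u → Conn E (h ∘ u) := fun h hh u hu =>
      hu.comp h (hG.inv h hh)
    have hBc : ∀ x, Nat.card {u : Fin (r + 1) → V // Conn E u ∧ u 0 = x} ≤ B := by
      intro x
      rw [hB]
      exact hConn V (dE r l q m) E hG.refl hG.symm (fun x => by convert hG.deg x) x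
    obtain ⟨A₁, E₁, hA₁, hc₁, hinv₁, hsymm₁, hdeg₁, hmain₁⟩ :=
      hRound S ar har V R A s B l q hq hs' (Conn E) hU hBc hl'
    refine ⟨A₁, fun x y => E x y ∨ E₁ x y, hA.trans hA₁, ?_, ?_, ?_, ?_, ?_, ?_⟩
    · calc q * A₁.card ≤ q * A.card + (r + 3) * Fintype.card V := hc₁
        _ ≤ q * A₀.card + m * (r + 3) * Fintype.card V + (r + 3) * Fintype.card V := by omega
        _ = q * A₀.card + (m + 1) * (r + 3) * Fintype.card V := by ring
    · exact fun x => Or.inl (hG.refl x)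
    · rintro x y (h | h)
      · exact Or.inl (hG.symm x y h)
      · exact Or.inr (hsymm₁ x y h)
    · rintro h hh x y (e | e)
      · exact Or.inl (hG.inv h (GA_anti hA₁ hh) x y e)
      · exact Or.inr (hinv₁ h hh x y e)
    · intro x
      have h1 : (Finset.univ.filter fun y : V => E x y ∨ E₁ x y) ⊆
          (Finset.univ.filter fun y : V => E x y) ∪ (Finset.univ.filter fun y : V => E₁ x y) := by
        intro y hy
        rw [Finset.mem_filter] at hy
        rw [Finset.mem_union, Finset.mem_filter, Finset.mem_filter]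
        rcases hy.2 with h | h
        · exact Or.inl ⟨Finset.mem_univ _, h⟩
        · exact Or.inr ⟨Finset.mem_univ _, h⟩
      have h2 : (Finset.univ.filter fun y : V => E x y).card ≤ dE r l q m := by convert hG.deg x
      have h3 : (Finset.univ.filter fun y : V => E₁ x y).card ≤ cD r l B q := by convert hdeg₁ x
      have h4 := (Finset.card_le_card h1).trans (Finset.card_union_le _ _)
      have h5 : dE r l q (m + 1) = dE r l q m + cD r l (cB r (dE r l q m)) q := rfl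
      rw [h5, ← hB]
      have h6 : (Finset.univ.filter fun y : V => E x y ∨ E₁ x y).card ≤ dE r l q m + cD r l B q := by
        omega
      convert h6
    · intro A' hA' u hu hO s' p hp
      have h5 : tE r l q (m + 1) = tE r l q m + cT r l (cB r (dE r l q m)) q +
        4 * (r + 1) ^ 2 * dE r l q m := rfl
      rw [← hB] at h5
      by_cases hcon : Conn E u
      · obtain ⟨w, hw, hE⟩ := hmain₁ A' hA' u hcon (lt_of_le_of_lt (by omega) (hO 0)) s' p hp
        exact ⟨w, hw, 0, Or.inr hE⟩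
      · obtain ⟨w, hw, i, hE⟩ := hSplit S ar har V R m (dE r l q m) (tE r l q m) (tE r l q (m + 1))
          A A' E hG (by omega) (by omega) (hA₁.trans hA') u (by convert hu) hcon hO s' p hp
        exact ⟨w, hw, i, Or.inl hE⟩

end Pool.Agent.Helper6.EA
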